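import Pool.Agent.Helper42.SG.GoalsA

/-!
# Project SG (MP_a41896_nt), part A: the block Roth lemma, split of RES, RES2 and BSTEP

Every goal has its complete proof in the docstring.  `FAC`, `WRON`, `RES`, `RES2`, `BASE`, `BL`, `InvW`,
`LowPt` are in `Pool/Agent/Helper42/SG/GoalsA.lean`, `PH`, `shiftP`, `IndGe`, `cmb`, `DivBound`,
`HeightLocal` in `Pool/Agent/Helper92/Ru/DefsR.lean`, `GoalsR.lean`.
-/

set_option autoImplicit false

open MvPolynomial

namespace Pool.Agent.Helper76.SGA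

open Pool.Agent.Helper92.Ru Pool.Agent.Helper42.SG

noncomputable section

/-- the last variable as the variable of a polynomial ring in one variable. -/
def sepL (k : Type) [Field k] (m : ℕ) :
    MvPolynomial (Fin (m + 1)) k ≃ₐ[k] Polynomial (MvPolynomial (Fin m) k) :=
  (renameEquiv k (finSuccEquivLast (n := m))).trans (optionEquivLeft k (Fin m))

/-- SEP: the formulas for `sepL`.  `cmb e (Finsupp.single 0 a)` is the exponent `(e, a)`.
Proof. `finSuccEquivLast` sends `Fin.last m` to `none` and `castSucc h` to `some h`; `optionEquivLeft_X_none`,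
`optionEquivLeft_X_some`, `optionEquivLeft_C`: the first three formulas.  Coefficients: both sides are linear in
`p`, so take `p` a monomial (`induction_on'`), `optionEquivLeft_monomial` or the product formula
`monomial = C * ∏ X ^ e`, or `optionEquivLeft_coeff_coeff` together with `coeff_rename_mapDomain`.
`natDegree`: `≤` and `≥` from the coefficient formula (`degreeOf_eq_sup`, `degreeOf_lt_iff`; for `p = 0` both are
`0`), or `natDegree_optionEquivLeft` and `degreeOf_rename_of_injective`.  The degree of the coefficients: a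
monomial `e` of the coefficient `a` gives the monomial `(e, a)` of `p`, `(e, a) (castSucc h) = e h`.
`shiftP`: both sides are algebra homomorphisms in `p` (composition of `sepL`, `Polynomial.mapAlgHom`/`mapRingHom`,
`Polynomial.taylorAlgHom`), so compare them on `X (castSucc h)`, `X (last)` (`MvPolynomial.algHom_ext`, or
`ringHom_ext`).  `pderiv`: compare coefficients (`coeff_pderiv`-type formula), or induction on `p` (`C`, sum,
product with a variable: both sides are derivations). -/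
def SEP : Prop :=
  ∀ (k : Type) [Field k] (m : ℕ),
    sepL k m (X (Fin.last m)) = Polynomial.X ∧
    (∀ h : Fin m, sepL k m (X (Fin.castSucc h)) = Polynomial.C (X h)) ∧
    (∀ c : k, sepL k m (C c) = Polynomial.C (C c)) ∧
    (∀ (p : MvPolynomial (Fin (m + 1)) k) (a : ℕ) (e : Fin m →₀ ℕ),
      coeff e ((sepL k m p).coeff a) = coeff (cmb e (Finsupp.single 0 a)) p) ∧
    (∀ p : MvPolynomial (Fin (m + 1)) k, (sepL k m p).natDegree = p.degreeOf (Fin.last m)) ∧
    (∀ (p : MvPolynomial (Fin (m + 1)) k) (a : ℕ) (h : Fin m),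
      ((sepL k m p).coeff a).degreeOf h ≤ p.degreeOf (Fin.castSucc h)) ∧
    (∀ (ξ : Fin (m + 1) → k) (p : MvPolynomial (Fin (m + 1)) k),
      sepL k m (shiftP ξ p) = Polynomial.taylor (C (ξ (Fin.last m)))
        ((sepL k m p).map (shiftP (fun h => ξ (Fin.castSucc h))).toRingHom)) ∧
    (∀ (p : MvPolynomial (Fin (m + 1)) k) (a : ℕ) (h : Fin m),
      (sepL k m (pderiv (Fin.castSucc h) p)).coeff a = pderiv h ((sepL k m p).coeff a)) ∧
    (∀ p : MvPolynomial (Fin (m + 1)) k,
      sepL k m (pderiv (Fin.last m) p) = Polynomial.derivative (sepL k m p))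

/-- RNZ: the resultant does not vanish.
Proof. `K = FractionRing A`.  `F` is primitive (`Irreducible.isPrimitive`), so irreducible over `K`
(`Polynomial.IsPrimitive.irreducible_iff_irreducible_map_fraction_map`; the `NormalizedGCDMonoid` instance of a
UFD is chosen inside the proof) and `F.map` does not divide `G.map`
(`IsPrimitive.dvd_iff_fraction_map_dvd_fraction_map` or a direct argument: `c G = F Q`, content).  So `F.map`,
`G.map` are coprime in `K[X]` (`Irreducible.coprime_iff_not_dvd`), their resultant (with the true degrees) is not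
zero (`Polynomial.resultant_eq_zero_iff` or `resultant_ne_zero`), so that of `F`, `G` is not zero (`resultant_map_map`,
`natDegree_map_eq_of_injective`).  With formal degree `N = deg F` for `G`: `resultant_add_right_deg`,
`F.coeff N = leadingCoeff F ≠ 0`. -/
def RNZ : Prop :=
  ∀ (A : Type) [CommRing A] [IsDomain A] [UniqueFactorizationMonoid A] (F G : Polynomial A),
    Irreducible F → 1 ≤ F.natDegree → ¬ F ∣ G → G.natDegree ≤ F.natDegree →
    Polynomial.resultant F G F.natDegree F.natDegree ≠ 0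

/-- RTY: translation invariance of the resultant with formal degrees `N, N`, `N = deg F`.
Proof. `Polynomial.resultant_taylor` for the true degrees, and `resultant_add_right_deg` for both sides
(`natDegree_taylor`, `leadingCoeff_taylor`; `deg G ≤ N`). -/
def RTY : Prop :=
  ∀ (A : Type) [CommRing A] [IsDomain A] (F G : Polynomial A) (r : A),
    G.natDegree ≤ F.natDegree →
    Polynomial.resultant (Polynomial.taylor r F) (Polynomial.taylor r G) F.natDegree F.natDegree
      = Polynomial.resultant F G F.natDegree F.natDegree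

/-- RDEG: degrees of the resultant.  Assume SEP.
Proof. The Sylvester matrix has `2N` rows, its entries are `0` or coefficients of `sepL f`, `sepL g`, of degree
`≤ d` in `X_h`; the determinant is a sum of products of `2N` entries (`Matrix.det_apply`, `degreeOf_sum_le`,
`degreeOf_prod_le`; compare `WronDeg`, `Pool/Agent/Helper34/Ru/WronDeg.lean`). -/
def RDEG : Prop :=
  ∀ (k : Type) [Field k] (m N d : ℕ) (f g : MvPolynomial (Fin (m + 1)) k) (h : Fin m),
    f.degreeOf (Fin.castSucc h) ≤ d → g.degreeOf (Fin.castSucc h) ≤ d →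
    (Polynomial.resultant (sepL k m f) (sepL k m g) N N).degreeOf h ≤ 2 * N * d

/-- RHT: height of the resultant.  Assume SEP, HeightLocal.
Proof. The entries of the Sylvester matrix (size `2N`) are `0` or polynomials in `m` variables of partial
degrees `≤ B` (so with at most `T = (B + 1) ^ m` monomials) whose coefficients are coefficients of `f` or of `g`, so at
a place `v` at most `|f|_v = max |coeff f|_v` (finite `v`: `|c|_v ≤ 1`), resp. `B |f|_v` (infinite `v`; `B ≥ 1`).  A coefficient of the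
determinant is a sum of at most `(2N)! T ^ (2N)` products of `2N` such coefficients (easiest: for the sum `S(p)` of the
absolute values of the coefficients, `S(p q) ≤ S(p) S(q)`, `S(p + q) ≤ S(p) + S(q)`, entries have `S ≤ T B |f|_v`, so
`S(det) ≤ (2N)! (T B |f|_v) ^ (2N)`; at the finite places the same with the maximum and no factorial).
`HeightLocal` with `s = 2N`, `c = (2N)! (T B) ^ (2N)`, `log c ≤ 2N (log (2N) + m log (B + 1) + log B) ≤ 2N (m + 3) B`
(`log (2N) ≤ 2N ≤ 2B`).  `C = (m + 3) [k : ℚ]`.  If the resultant is `0` its `PH` is `1` (the height of the empty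
vector; `log 1 = 0`, right side `≥ 0`).  Compare `DetHeight` (`Pool/Agent/Helper15/Ru/DetH.lean`). -/
def RHT : Prop :=
  ∀ (k : Type) [Field k] [NumberField k] (m : ℕ), ∃ C : ℝ, 1 ≤ C ∧
    ∀ (f g : MvPolynomial (Fin (m + 1)) k) (N : ℕ) (B : ℝ), f ≠ 0 → 1 ≤ N → (N : ℝ) ≤ B →
      (∀ h, (f.degreeOf h : ℝ) ≤ B) → (∀ h, (g.degreeOf h : ℝ) ≤ B) →
      (∀ e, ∃ (e' : Fin (m + 1) →₀ ℕ) (c : ℕ), (c : ℝ) ≤ B ∧ coeff e g = (c : k) * coeff e' f) →
      Real.log (PH (Polynomial.resultant (sepL k m f) (sepL k m g) N N)) ≤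
        2 * N * (Real.log (PH f) + C * B)

/-- RIX: index of the resultant.  Assume SEP, RTY.
Proof. `φ = shiftP ξ'`, `ξ' = ξ ∘ castSucc`.  `φ (Res (sepL f, sepL g)) = Res ((sepL f).map φ, (sepL g).map φ)`
(`resultant_map_map`) `= Res (taylor .. , taylor ..)` (RTY: `φ` is injective, so the degree of `(sepL f).map φ` is `N`)
`= Res (sepL (shiftP ξ f), sepL (shiftP ξ g))` (SEP).  The coefficient of `Y^a` in `sepL (shiftP ξ f)`: a monomial `e`
of it gives the monomial `(e, a)` of `shiftP ξ f`, so `∑ e_h / r_h ≥ τ - a / r_Y ≥ τ' - a / r_Y`, also `≥ 0`; the same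
for `g`.  Row `i` of the Sylvester matrix (`Polynomial.sylvester`) contains only `0` and coefficients `a = i - j ≤ i`: all monomials of
the entries of row `i` have weight `≥ c_i = max 0 (τ' - i / r_Y)`.  A product over a permutation takes one entry from each
row, so its monomials have weight `≥ ∑_i c_i` (monomials of a product are sums of monomials of the factors; weight is
additive).  Compare `DetIndex` (`Pool/Agent/Helper18/Ru/DetIndex.lean`). -/
def RIX : Prop :=
  ∀ (k : Type) [Field k] (m N : ℕ) (r : Fin (m + 1) → ℕ) (ξ : Fin (m + 1) → k) (τ τ' : ℝ)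
    (f g : MvPolynomial (Fin (m + 1)) k), (∀ h, 1 ≤ r h) → f.degreeOf (Fin.last m) = N →
    g.degreeOf (Fin.last m) ≤ N → τ' ≤ τ → IndGe r ξ τ f → IndGe r ξ τ' g →
    IndGe (fun h => r (Fin.castSucc h)) (fun h => ξ (Fin.castSucc h))
      (∑ i ∈ Finset.range (2 * N), max 0 (τ' - (i : ℝ) / (r (Fin.last m) : ℝ)))
      (Polynomial.resultant (sepL k m f) (sepL k m g) N N)

/-- DDV: the partial derivative of an irreducible polynomial.
Proof. `∂f/∂X_h ≠ 0` in characteristic `0` if `deg_h f ≥ 1` (a monomial of maximal degree in `X_h` survives), its degree in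
`X_h` is `≤ deg_h f - 1`, so it is not a multiple of `f` (`degreeOf_mul_eq` in a domain: `deg_h (f q) ≥ deg_h f`).  Degrees in
the other variables do not increase; `coeff e (pderiv h f) = (e h + 1) * coeff (e + single h 1) f` (if this coefficient is
not `0`, `e h + 1 ≤ deg_h f`; if it is `0` take `c = 0`).  Index: `shiftP ξ (pderiv h f) = pderiv h (shiftP ξ f)`, so a
monomial `e` of it gives the monomial `e + single h 1` of `shiftP ξ f`. -/
def DDV : Prop :=
  ∀ (k : Type) [Field k] [CharZero k] (M : ℕ) (f : MvPolynomial (Fin M) k) (h : Fin M),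
    f ≠ 0 → 1 ≤ f.degreeOf h →
    pderiv h f ≠ 0 ∧ ¬ f ∣ pderiv h f ∧ (∀ h', (pderiv h f).degreeOf h' ≤ f.degreeOf h') ∧
    (∀ e, ∃ (e' : Fin M →₀ ℕ) (c : ℕ), c ≤ f.degreeOf h ∧
      coeff e (pderiv h f) = (c : k) * coeff e' f) ∧
    ∀ (r : Fin M → ℕ) (ξ : Fin M → k) (τ : ℝ), IndGe r ξ τ f →
      IndGe r ξ (τ - 1 / (r h : ℝ)) (pderiv h f)

/-- RESA: `RES` from the parts.  `g := Res (sepL f, sepL (pderiv V f)) N N`, `V = h.castSucc.castSucc`, `N = deg_Y f`.
Nonzero: RNZ for `A = MvPolynomial (Fin (m + 1)) k`, `F = sepL f` (irreducible because `sepL` is an isomorphism,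
`natDegree = N`), `¬ F ∣ sepL (pderiv V f)` (DDV).  Degrees: RDEG.  Height: RHT with `B = H W` (`N ≤ r_Y W ≤ H W`, all degrees
`≤ r_h W ≤ H W`).  Index: RIX with `τ' = τ / 2` (`τ - 1 / r_V ≥ τ - 1/ρ ≥ τ/2`), and
`∑_{i < 2N} max 0 (τ/2 - i / r_Y) ≥ min (2N) (τ r_Y / 4) * (τ/4)`: the terms with `i ≤ τ r_Y / 4` are `≥ τ/4`, there are
`≥ min (2N) (τ r_Y / 4)` of them (`IndGe` is monotone in the bound). -/
def RESA : Prop := SEP → RNZ → RDEG → RHT → RIX → DDV → RES

/-- RES2A: `RES2` from the parts, `m = 1`: `f` in `MvPolynomial (Fin 2) k`, `Y = Fin.last 1`,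
`g := Res (sepL f, sepL (pderiv 1 f)) N N`, `N = deg_Y f`.  RHT with the bound `B` (`N ≤ B`), RDEG (`d = f.degreeOf 0 ≤ B`), RIX
with all `r = 1`, `τ = o`, `τ' = o - 1` (DDV): `∑_{i < 2N} max 0 (o - 1 - i) ≥ min (2N) (o/2) * (o/4)`: the terms with
`i ≤ (o - 1)/2` are `≥ (o - 1)/2 ≥ o/4`, there are `≥ min (2N) (o/2)` of them. -/
def RES2A : Prop := SEP → RNZ → RDEG → RHT → RIX → DDV → RES2

/-- REN: polynomials in a part of the variables.
Proof. `f = rename e f'` (`exists_rename_eq_of_vars_subset_range`; `degreeOf h f = 0` iff `h ∉ vars f`).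
`degreeOf_rename_of_injective`.  `PH`: the supports correspond under `Finsupp.mapDomain e`
(`support_rename_of_injective`), `coeff_rename_mapDomain`, the height does not change under a bijection of the index
sets (`Height.mulHeight_comp_equiv`-type lemma; compare `PHMul`).  `shiftP ξ (rename e f') = rename e (shiftP (ξ ∘ e) f')`
(algebra homomorphisms, compare on `X`), and the weight of `mapDomain e μ` for `r` is the weight of `μ` for `r ∘ e`.  Irreducible:
`rename e` has the left inverse `ρ = aeval (fun h => if h = e h' then X h' else 0)`, so `a` is a unit iff `rename e a`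
is one. `eval`: `eval_rename`. -/
def REN : Prop :=
  ∀ (k : Type) [Field k] [NumberField k] (m M : ℕ) (e : Fin m → Fin M), Function.Injective e →
    ∀ f : MvPolynomial (Fin M) k, (∀ h, h ∉ Set.range e → f.degreeOf h = 0) →
    ∃ f' : MvPolynomial (Fin m) k, f = rename e f' ∧ (∀ h, f'.degreeOf h = f.degreeOf (e h)) ∧
      PH f' = PH f ∧
      (∀ (r : Fin M → ℕ) (ξ : Fin M → k) (θ : ℝ), IndGe r ξ θ f →
        IndGe (fun h => r (e h)) (fun h => ξ (e h)) θ f') ∧
      (Irreducible f → Irreducible f') ∧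
      ∀ ξ : Fin M → k, eval (fun h => ξ (e h)) f' = eval ξ f

/-- STEPA: elimination of the variable `Y` (last) of the last block `(X, Y)`.  Assume RES, REN.
Proof. Write `r = r_Y = r_X`, `V` the lower variable.  Some degree in the last block is `≥ 1`, so `1 ≤ r W`.
(a) `N = deg_Y f ≥ 1`: RES with `τ = σ W`, `ρ = r / ω` (`1/ρ = ω / r ≤ ω W ≤ σ W / 2` if `ω ≤ σ / 2`): `g` with degrees
`≤ 2 N r_h W`, height `≤ 2 N C H W`, index `≥ min (2N) (σ W r / 4) σ W / 4 ≥ N min(2, σ/4) σ W / 4` (`N ≤ r W`).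
`W' = 2 N W`, `σ₃ = min(2, σ/4) σ / 8`, `1 ≤ r W ≤ r W'`.
(b) `deg_Y f = 0`: `f = rename castSucc g` (REN), `W' = W`, index `≥ σ W ≥ σ₃ W`, `H ≤ C H`. -/
def STEPA : Prop :=
  ∀ (k : Type) [Field k] [NumberField k] (m : ℕ) (σ : ℝ), 0 < σ → ∃ C ω σ₃ : ℝ,
    1 ≤ C ∧ 0 < ω ∧ ω ≤ 1 ∧ 0 < σ₃ ∧
    ∀ (r : Fin (m + 2) → ℕ) (ξ : Fin (m + 2) → k) (H W : ℝ) (f : MvPolynomial (Fin (m + 2)) k),
      (∀ h, 1 ≤ r h ∧ (r h : ℝ) ≤ H) → r (Fin.last (m + 1)) = r (Fin.castSucc (Fin.last m)) →
      (∀ h : Fin m, (r (Fin.last (m + 1)) : ℝ) ≤ ω * r h.castSucc.castSucc) →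
      Irreducible f → InvW r ξ H σ W f →
      (1 ≤ f.degreeOf (Fin.last (m + 1)) ∨ 1 ≤ f.degreeOf (Fin.castSucc (Fin.last m))) →
      (∃ h : Fin m, 1 ≤ f.degreeOf h.castSucc.castSucc) →
      ∃ (g : MvPolynomial (Fin (m + 1)) k) (W' : ℝ), 1 ≤ (r (Fin.last (m + 1)) : ℝ) * W' ∧
        InvW (fun h => r (Fin.castSucc h)) (fun h => ξ (Fin.castSucc h)) (C * H) σ₃ W' g

/-- STEPB: elimination of the variable `X` (now the last).  Assume WRON, DivBound.
Proof. `r` = weight of the last variable, `θ = σ W`, `D = deg_last g ≤ r W`, `ρ = r / ω`, `D / ρ ≤ ω W ≤ θ / 4` if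
`ω ≤ σ / 4`, `R = ⌈H W⌉ ≤ 2 H W` (`H W ≥ r W ≥ 1`).  WRON: `s, U, V, a, b`.  The terms with `j ≤ θ r / 2` of the sum are
`≥ θ / 4`, there are at least `min s (θ r / 2)` of them (if `s = 1` there is the term `j = 0`), and `s ≤ D + 1 ≤ 2 r W` if
`D ≥ 1`: `θ r / 2 = σ r W / 2 ≥ σ s / 4`.  So the sum is `≥ s σ₄ W`, `σ₄ = min(1, σ/4) σ / 4`.
If `b ≥ s σ₄ W / 2`: all exponents of `V(t + ξ)` are `≥ r s σ₄ W / 2`; `DivBound` with `⌈r s σ₄ W / 2⌉` and degree
`≤ s D ≤ s r W ≤ s H W` (take `V.degreeOf 0` itself), `log PH V ≤ s (log PH g + C R) ≤ s (1 + 2 C) H W` (`PH U ≥ 1`):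
`(r s σ₄ W / 2) log H(ξ) ≤ s H W ([k:ℚ] log 2 + 1 + 2 C)`, so `r log H(ξ) ≤ Kc H`, contradiction.
Otherwise `a ≥ s σ₄ W / 2`: `W' = s W`, `σ' = σ₄ / 2`, degrees `≤ s deg g ≤ r_h W'`, height `≤ (1 + 2 C) H W'`. -/
def STEPB : Prop :=
  ∀ (k : Type) [Field k] [NumberField k] (m : ℕ) (σ : ℝ), 0 < σ → ∃ C Kc ω σ' : ℝ,
    1 ≤ C ∧ 1 ≤ Kc ∧ 0 < ω ∧ ω ≤ 1 ∧ 0 < σ' ∧
    ∀ (r : Fin (m + 1) → ℕ) (ξ : Fin (m + 1) → k) (H W : ℝ) (g : MvPolynomial (Fin (m + 1)) k),
      (∀ h, 1 ≤ r h ∧ (r h : ℝ) ≤ H) →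
      (∀ h : Fin m, (r (Fin.last m) : ℝ) ≤ ω * r (Fin.castSucc h)) →
      1 ≤ (r (Fin.last m) : ℝ) * W → InvW r ξ H σ W g →
      Kc * H < r (Fin.last m) * Height.logHeight₁ (ξ (Fin.last m)) →
      ∃ (U : MvPolynomial (Fin m) k) (W' : ℝ),
        InvW (fun h => r (Fin.castSucc h)) (fun h => ξ (Fin.castSucc h)) (C * H) σ' W' U

/-- BSTEPA: the induction step from the parts.
Proof. `BL (n + 1)`, `σ`.  FAC for `m = 2n + 2`: `C₁, σ₁`; replace `p` by an irreducible `f`, `InvW r ξ (C₁ H) σ₁ W f`.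
(i) `f` has degree `0` in the two variables `2n`, `2n + 1`: REN with `e = castLE : Fin (2n) → Fin (2n + 2)`, then `BL n`
for `σ₁` with `C₁ H`: `LowPt n` implies `LowPt (n + 1)`.
(ii) `f` has degree `0` in all the variables `< 2n`: REN with `e : Fin 2 → Fin (2n + 2)`, `e i = 2n + i`, and BASE with
`d = d n`, `C₁ H`, `σ₁`: `LowPt (n + 1)` with `j = n` (`ξ (2 n + i)`).
(iii) otherwise STEPA (`m = 2n`, `σ₁`: `C₂, ω₂, σ₃`; `r_(2n) = r_(2n+1) = d n`, `d n ≤ ω d j` for `j < n`) and STEPB (`σ₃`, with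
`C₂ C₁ H`: `C₃, K₃, ω₃, σ₄`) give `U` in `2n` variables with `InvW r ξ (C₃ C₂ C₁ H) σ₄ W' U`, and `BL n` for `σ₄`.
`D` = maximum of the three `D`; `Kc = C₁ C₂ C₃ (K_(BL,σ₁) + K_BASE + K₃ + K_(BL,σ₄))` (each `≥ 1`), `ω` = minimum.
The height of `d j` is `≤ H ≤ C₁ H` etc.  `2 * (n + 1) = 2 * n + 2` holds by `rfl`. -/
def BSTEPA : Prop := FAC → REN → BASE → STEPA → STEPB → BSTEP

end

end Pool.Agent.Helper76.SGA
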