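import Pool.Agent.Helper76.SGA.Goals
set_option autoImplicit false
namespace Pool.Agent.Helper76.SGA
open Polynomial

theorem rty : RTY := by
  intro A _ _ F G r hG
  obtain ⟨k, hk⟩ := Nat.exists_eq_add_of_le hG
  have h1 : resultant F G F.natDegree F.natDegree
      = F.coeff F.natDegree ^ k * resultant F G F.natDegree G.natDegree := by
    conv_lhs => rw [show resultant F G F.natDegree F.natDegree
      = resultant F G F.natDegree (G.natDegree + k) by rw [← hk]]
    rw [resultant_add_right_deg _ _ _ _ _ (le_refl _)]
  have h2 : resultant (taylor r F) (taylor r G) F.natDegree F.natDegree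
      = (taylor r F).coeff F.natDegree ^ k
        * resultant (taylor r F) (taylor r G) F.natDegree G.natDegree := by
    conv_lhs => rw [show resultant (taylor r F) (taylor r G) F.natDegree F.natDegree
      = resultant (taylor r F) (taylor r G) F.natDegree (G.natDegree + k) by rw [← hk]]
    rw [resultant_add_right_deg _ _ _ _ _ (by rw [natDegree_taylor])]
  have h3 := resultant_taylor F G r
  rw [natDegree_taylor, natDegree_taylor] at h3
  have h4 : (taylor r F).coeff F.natDegree = F.coeff F.natDegree := by
    have := leadingCoeff_taylor r F
    unfold leadingCoeff at this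
    rwa [natDegree_taylor] at this
  rw [h1, h2, h3, h4]

end Pool.Agent.Helper76.SGA
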