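import Pool.Agent.Helper13.SGA.RIX
import Pool.Agent.Helper2.SGA.WRON
import Pool.Agent.Helper24.SGA.FAC
import Pool.Agent.Helper3.SGA.GEL
import Pool.Agent.Helper31.SGA.GELARCH
import Pool.Agent.Helper32.SGA.REN
import Pool.Agent.Helper35.SGA.BASE
import Pool.Agent.Helper35.SGA.INDM
import Pool.Agent.Helper35.SGA.RESA
import Pool.Agent.Helper39.SGA.BSTEPA
import Pool.Agent.Helper4.SGA.STEPA
import Pool.Agent.Helper57.SGA.SEP
import Pool.Agent.Helper69.SGA.RNZ
import Pool.Agent.Helper73.SGA.BZERO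
import Pool.Agent.Helper76.SGA.RTY
import Pool.Agent.Helper89.SGA.RDEG
import Pool.Agent.Helper90.SGA.DDV
import Pool.Agent.Helper92.SGA.STEPB
import Pool.Agent.Helper95.SGA.RHT
import Pool.Agent.Helper98.SGA.RES2A

/-!
# The block Roth lemma (project SG, part A), unconditional
-/

set_option autoImplicit false

namespace Pool.Agent.Helper76.SGA

open Pool.Agent.Helper42.SG

theorem rix : RIX := Pool.Agent.Helper13.SGA.rix Pool.Agent.Helper57.SGA.sep
  Pool.Agent.Helper76.SGA.rty

theorem rht : RHT := Pool.Agent.Helper95.SGA.rht Pool.Agent.Helper57.SGA.sep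

theorem rdeg : RDEG := Pool.Agent.Helper89.SGA.rdeg Pool.Agent.Helper57.SGA.sep

theorem res : RES := Pool.Agent.Helper35.SGA.resa Pool.Agent.Helper57.SGA.sep
  Pool.Agent.Helper69.SGA.rnz rdeg rht rix Pool.Agent.Helper90.SGA.ddv

theorem res2 : RES2 := Pool.Agent.Helper98.SGA.res2a Pool.Agent.Helper57.SGA.sep
  Pool.Agent.Helper69.SGA.rnz rdeg rht rix Pool.Agent.Helper90.SGA.ddv

theorem gel : GEL := Pool.Agent.Helper3.SGA.gel Pool.Agent.Helper31.SGA.gelarch

theorem fac : FAC := Pool.Agent.Helper24.SGA.fac gel Pool.Agent.Helper35.SGA.indm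

theorem bstep : BSTEP := Pool.Agent.Helper39.SGA.bstepa fac Pool.Agent.Helper32.SGA.ren
  (Pool.Agent.Helper35.SGA.base res2)
  (Pool.Agent.Helper4.SGA.stepa res Pool.Agent.Helper32.SGA.ren)
  (Pool.Agent.Helper92.SGA.stepb Pool.Agent.Helper2.SGA.wron)

/-- **The block Roth lemma** for any number of blocks of two variables. -/
theorem blockRoth : ∀ n : ℕ, BL n
  | 0 => Pool.Agent.Helper73.SGA.bzero
  | n + 1 => bstep n (blockRoth n)

end Pool.Agent.Helper76.SGA
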